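import Pool.Agent.BezRD.Main

/-!
# Two-sided Bezout domains that are not RD, over every field (helper452)

The construction of `Pool.Agent.BezRD.Main` over an arbitrary field `k` in place of the rationals,
as a `k`-algebra with an anti-automorphism.
-/

set_option autoImplicit false

namespace Pool.Agent.H452.BZ

open Matrix PowerSeries Pool.Agent.BezRD

section alg
variable {K : Type} [Field K] (σ : K →+* K) (hσ : ∀ a, σ (σ a) = a) (O : Subring K)
variable {k : Type} [Field k] (ι : k →+* K) (hι : ∀ c, ι c ∈ O) (hισ : ∀ c, σ (ι c) = ι c)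

theorem ext_RO {a b : RO σ hσ O} (h1 : pp σ hσ O a = pp σ hσ O b)
    (h2 : qq σ hσ O a = qq σ hσ O b) : a = b := by
  apply Subtype.ext
  rw [pq σ hσ O a, pq σ hσ O b, h1, h2]

theorem pp_el (p q : PowerSeries K) (hp : constantCoeff p ∈ O) : pp σ hσ O (el σ hσ O p q hp) = p :=
  rfl

theorem qq_el (p q : PowerSeries K) (hp : constantCoeff p ∈ O) : qq σ hσ O (el σ hσ O p q hp) = q :=
  rfl

theorem pp_add (a b : RO σ hσ O) : pp σ hσ O (a + b) = pp σ hσ O a + pp σ hσ O b := rfl

theorem qq_add (a b : RO σ hσ O) : qq σ hσ O (a + b) = qq σ hσ O a + qq σ hσ O b := rfl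

/-- the scalars -/
noncomputable def sc : k →+* RO σ hσ O where
  toFun c := el σ hσ O (C (ι c)) 0 (by simpa using hι c)
  map_one' := by
    apply ext_RO
    · rw [pp_el, map_one, map_one]; rfl
    · rw [qq_el]; rfl
  map_zero' := by
    apply ext_RO
    · rw [pp_el, map_zero, map_zero]; rfl
    · rw [qq_el]; rfl
  map_mul' c d := by
    apply ext_RO
    · rw [pp_mul, pp_el, pp_el, pp_el, qq_el, qq_el, map_mul, map_mul]
      simp
    · rw [qq_mul, pp_el, pp_el, qq_el, qq_el, qq_el]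
      simp
  map_add' c d := by
    apply ext_RO
    · rw [pp_add, pp_el, pp_el, pp_el, map_add, map_add]
    · rw [qq_add, qq_el, qq_el, qq_el, add_zero]

include hισ in
theorem sc_central (c : k) (a : RO σ hσ O) : sc σ hσ O ι hι c * a = a * sc σ hσ O ι hι c := by
  have h1 : pp σ hσ O (sc σ hσ O ι hι c) = C (ι c) := rfl
  have h2 : qq σ hσ O (sc σ hσ O ι hι c) = 0 := rfl
  apply ext_RO
  · rw [pp_mul, pp_mul, h1, h2]
    simp only [map_zero, mul_zero, zero_mul, add_zero]
    ring
  · rw [qq_mul, qq_mul, h1, h2]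
    have h3 : sg σ (C (ι c)) = C (ι c) := by
      rw [sg, PowerSeries.map_C, hισ]
    rw [h3]
    simp only [mul_zero, zero_mul, add_zero, zero_add]
    ring

/-- the anti-automorphism -/
noncomputable def th (a : RO σ hσ O) : RO σ hσ O :=
  el σ hσ O (pp σ hσ O a) (sg σ (qq σ hσ O a)) (pp_mem σ hσ O a)

theorem th_mul (a b : RO σ hσ O) : th σ hσ O (a * b) = th σ hσ O b * th σ hσ O a := by
  apply ext_RO
  · rw [pp_mul]
    simp only [th, pp_el, qq_el]
    rw [pp_mul, sg_sg σ hσ]
    ring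
  · rw [qq_mul]
    simp only [th, pp_el, qq_el]
    rw [qq_mul, map_add, map_mul, map_mul, sg_sg σ hσ]
    ring

theorem th_add (a b : RO σ hσ O) : th σ hσ O (a + b) = th σ hσ O a + th σ hσ O b := by
  apply ext_RO
  · rw [pp_add]
    simp only [th, pp_el]
    rw [pp_add]
  · rw [qq_add]
    simp only [th, qq_el]
    rw [qq_add, map_add]

theorem th_th (a : RO σ hσ O) : th σ hσ O (th σ hσ O a) = a := by
  apply ext_RO
  · simp only [th, pp_el]
  · simp only [th, qq_el]
    rw [sg_sg σ hσ]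

include hισ in
theorem th_sc (c : k) : th σ hσ O (sc σ hσ O ι hι c) = sc σ hσ O ι hι c := by
  apply ext_RO
  · rfl
  · change sg σ 0 = 0
    rw [map_zero]

end alg

/-! ### the field of rational functions over an arbitrary field -/

section field
open LaurentPolynomial

variable (F : Type) [Field F]

/-- Laurent polynomials -/
abbrev LQ := LaurentPolynomial F
/-- rational functions -/
abbrev KQ := FractionRing (LQ F)

theorem inj_inv : Function.Injective
    ((algebraMap (LQ F) (KQ F)).comp ((LaurentPolynomial.invert (R := F)).toRingEquiv.toRingHom)) := by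
  refine (IsFractionRing.injective (LQ F) (KQ F)).comp ?_
  exact (LaurentPolynomial.invert (R := F)).injective

/-- the involution -/
noncomputable def sig : (KQ F) →+* (KQ F) := IsFractionRing.lift (inj_inv F)

theorem sig_algebraMap (p : (LQ F)) : (sig F) (algebraMap (LQ F) (KQ F) p) =
    algebraMap (LQ F) (KQ F) (LaurentPolynomial.invert p) :=
  IsFractionRing.lift_algebraMap (inj_inv F) p

theorem sig_sig (a : (KQ F)) : (sig F) ((sig F) a) = a := by
  obtain ⟨x, y, -, rfl⟩ := IsFractionRing.div_surjective (LQ F) a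
  rw [map_div₀, map_div₀, (sig_algebraMap F), (sig_algebraMap F), (sig_algebraMap F), (sig_algebraMap F),
    LaurentPolynomial.involutive_invert, LaurentPolynomial.involutive_invert]

/-- the embedding of polynomials -/
noncomputable def PQ : Polynomial F →+* (KQ F) := (algebraMap (LQ F) (KQ F)).comp Polynomial.toLaurent

theorem PQ_inj : Function.Injective (PQ F) :=
  (IsFractionRing.injective (LQ F) (KQ F)).comp Polynomial.toLaurent_injective

/-- the subring of polynomials -/
noncomputable def OQ : Subring (KQ F) := (PQ F).range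

theorem H1 (u : (KQ F)) : ∃ g ∈ (OQ F), ∃ h ∈ (OQ F), ∃ p ∈ (OQ F), ∃ q ∈ (OQ F),
    h ≠ 0 ∧ u * h = g ∧ p * h + q * g = 1 := by
  classical
  obtain ⟨a, b, hb, rfl⟩ := IsFractionRing.div_surjective (LQ F) u
  have hb0 : b ≠ 0 := nonZeroDivisors.ne_zero hb
  obtain ⟨k, a', ha'⟩ := LaurentPolynomial.exists_T_pow a
  obtain ⟨l, b', hb'⟩ := LaurentPolynomial.exists_T_pow b
  set G := a' * Polynomial.X ^ l with hG
  set H := b' * Polynomial.X ^ k with hH
  have hT : ∀ i j : ℕ, (T (i : ℤ) : (LQ F)) * T (j : ℤ) = T ((i + j : ℕ) : ℤ) := by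
    intro i j
    rw [← T_add]
    push_cast
    rfl
  have eG : Polynomial.toLaurent G = a * T ((k + l : ℕ) : ℤ) := by
    rw [hG, map_mul, ha', Polynomial.toLaurent_X_pow, mul_assoc, hT]
  have eH : Polynomial.toLaurent H = b * T ((k + l : ℕ) : ℤ) := by
    rw [hH, map_mul, hb', Polynomial.toLaurent_X_pow, mul_assoc, hT, add_comm l k]
  have hTne : (T ((k + l : ℕ) : ℤ) : (LQ F)) ≠ 0 := (isUnit_T _).ne_zero
  have hH0 : H ≠ 0 := by
    intro h
    rw [h, map_zero] at eH
    exact mul_ne_zero hb0 hTne eH.symm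
  obtain ⟨H1, hH1⟩ := EuclideanDomain.gcd_dvd_left H G
  obtain ⟨G1, hG1⟩ := EuclideanDomain.gcd_dvd_right H G
  set d := EuclideanDomain.gcd H G with hd
  have hd0 : d ≠ 0 := by
    intro h
    rw [h, zero_mul] at hH1
    exact hH0 hH1
  have hbez := EuclideanDomain.gcd_eq_gcd_ab H G
  rw [← hd] at hbez
  have h1 : H1 * EuclideanDomain.gcdA H G + G1 * EuclideanDomain.gcdB H G = 1 := by
    apply mul_left_cancel₀ hd0
    rw [mul_one]
    conv_rhs => rw [hbez]
    conv_rhs => rw [hH1, hG1]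
    have e1 : EuclideanDomain.gcdA (d * H1) (d * G1) = EuclideanDomain.gcdA H G := by
      rw [← hH1, ← hG1]
    have e2 : EuclideanDomain.gcdB (d * H1) (d * G1) = EuclideanDomain.gcdB H G := by
      rw [← hH1, ← hG1]
    rw [e1, e2]
    ring
  have hH1' : H1 ≠ 0 := by
    rintro rfl
    rw [mul_zero] at hH1
    exact hH0 hH1
  refine ⟨(PQ F) G1, ⟨G1, rfl⟩, (PQ F) H1, ⟨H1, rfl⟩, (PQ F) (EuclideanDomain.gcdA H G), ⟨_, rfl⟩,
    (PQ F) (EuclideanDomain.gcdB H G), ⟨_, rfl⟩, ?_, ?_, ?_⟩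
  · intro h
    exact hH1' ((PQ_inj F) (by rw [h, map_zero]))
  · have hb1 : algebraMap (LQ F) (KQ F) b ≠ 0 := by
      intro h
      exact hb0 ((IsFractionRing.injective (LQ F) (KQ F)) (by rw [h, map_zero]))
    have hd1 : (PQ F) d ≠ 0 := by
      intro h
      exact hd0 ((PQ_inj F) (by rw [h, map_zero]))
    have hT1 : algebraMap (LQ F) (KQ F) (T ((k + l : ℕ) : ℤ)) ≠ 0 := by
      intro h
      exact hTne ((IsFractionRing.injective (LQ F) (KQ F)) (by rw [h, map_zero]))
    apply mul_left_cancel₀ hd1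
    have e1 : (PQ F) d * (PQ F) H1 = algebraMap (LQ F) (KQ F) b * algebraMap (LQ F) (KQ F) (T ((k + l : ℕ) : ℤ)) := by
      rw [← map_mul, ← hH1, ← map_mul, ← eH]
      rfl
    have e2 : (PQ F) d * (PQ F) G1 = algebraMap (LQ F) (KQ F) a * algebraMap (LQ F) (KQ F) (T ((k + l : ℕ) : ℤ)) := by
      rw [← map_mul, ← hG1, ← map_mul, ← eG]
      rfl
    rw [e2, mul_left_comm, e1]
    field_simp
  · rw [← map_mul, ← map_mul, ← map_add, mul_comm (EuclideanDomain.gcdA H G),
      mul_comm (EuclideanDomain.gcdB H G), h1, map_one]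

theorem coeff_neg' (p : Polynomial F) (n : ℤ) (hn : n < 0) : (Polynomial.toLaurent p).coeff n = 0 := by
  rw [coeff_toLaurent]
  apply Finsupp.mapDomain_of_notMem_range
  rintro ⟨k, hk⟩
  have : (k : ℤ) = n := hk
  omega

theorem coeff_nat (p : Polynomial F) (n : ℕ) : (Polynomial.toLaurent p).coeff (n : ℤ) = p.coeff n := by
  rw [coeff_toLaurent]
  exact Finsupp.mapDomain_apply (Nat.castEmbedding (R := ℤ)).injective _ n

theorem H2 (a : (KQ F)) (ha : a ∈ (OQ F)) (hsa : (sig F) a ∈ (OQ F)) (h0 : a ≠ 0) : a⁻¹ ∈ (OQ F) ∧ (sig F) a⁻¹ ∈ (OQ F) := by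
  obtain ⟨p, rfl⟩ := ha
  obtain ⟨q, hq⟩ := hsa
  have h1 : LaurentPolynomial.invert (Polynomial.toLaurent p) = Polynomial.toLaurent q := by
    apply IsFractionRing.injective (LQ F) (KQ F)
    rw [← (sig_algebraMap F)]
    exact hq.symm
  have h2 : p = Polynomial.C (p.coeff 0) := by
    ext n
    rcases n with _ | n
    · simp
    · rw [Polynomial.coeff_C_succ]
      have h3 := congrArg (fun z : (LQ F) => z.coeff (-((n + 1 : ℕ) : ℤ))) h1
      simp only [LaurentPolynomial.invert_apply, neg_neg] at h3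
      rw [coeff_nat, coeff_neg' F q _ (by push_cast; omega)] at h3
      exact h3
  set c := p.coeff 0 with hc
  have hc0 : c ≠ 0 := by
    intro h
    apply h0
    rw [h2, h]
    simp
  have h3 : ((PQ F) p)⁻¹ = (PQ F) (Polynomial.C c⁻¹) := by
    apply inv_eq_of_mul_eq_one_right
    rw [h2, ← map_mul, ← map_mul, mul_inv_cancel₀ hc0]
    simp
  have h4 : (sig F) ((PQ F) (Polynomial.C c⁻¹)) = (PQ F) (Polynomial.C c⁻¹) := by
    change (sig F) (algebraMap (LQ F) (KQ F) (Polynomial.toLaurent (Polynomial.C c⁻¹))) =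
      algebraMap (LQ F) (KQ F) (Polynomial.toLaurent (Polynomial.C c⁻¹))
    rw [(sig_algebraMap F), Polynomial.toLaurent_C, LaurentPolynomial.invert_C]
  constructor
  · rw [h3]
    exact ⟨_, rfl⟩
  · rw [h3, h4]
    exact ⟨_, rfl⟩

/-- the element `1 / (T - 1)` -/
noncomputable def ff : (KQ F) := ((PQ F) (Polynomial.X - 1))⁻¹

theorem H3 (a : (KQ F)) (ha : a ∈ (OQ F)) (b : (KQ F)) (hb : b ∈ (OQ F)) : (ff F) ≠ a + (sig F) b := by
  intro h
  obtain ⟨p, rfl⟩ := ha
  obtain ⟨q, rfl⟩ := hb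
  have hX : (Polynomial.X - 1 : Polynomial F) ≠ 0 := Polynomial.X_sub_C_ne_zero 1
  have hX' : (PQ F) (Polynomial.X - 1) ≠ 0 := by
    intro h
    exact hX ((PQ_inj F) (by rw [h, map_zero]))
  set z : (LQ F) := Polynomial.toLaurent p + LaurentPolynomial.invert (Polynomial.toLaurent q) with hz
  have h1 : algebraMap (LQ F) (KQ F) z = (PQ F) p + (sig F) ((PQ F) q) := by
    rw [hz, map_add]
    congr 1
    exact ((sig_algebraMap F) _).symm
  rw [← h1, ff] at h
  replace h : (PQ F) (Polynomial.X - 1) * algebraMap (LQ F) (KQ F) z = 1 := by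
    rw [← h, mul_inv_cancel₀ hX']
  have h2 : Polynomial.toLaurent (Polynomial.X - 1 : Polynomial F) * z = 1 := by
    apply IsFractionRing.injective (LQ F) (KQ F)
    rw [map_mul, map_one]
    exact h
  obtain ⟨n, z', hz'⟩ := LaurentPolynomial.exists_T_pow z
  have h3 : (Polynomial.X - 1) * z' = Polynomial.X ^ n := by
    apply Polynomial.toLaurent_injective
    rw [map_mul, hz', ← mul_assoc, h2, one_mul, Polynomial.toLaurent_X_pow]
  have h4 := congrArg (Polynomial.eval 1) h3
  simp at h4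

end field

/-- the scalars in the field of rational functions -/
noncomputable def io (F : Type) [Field F] : F →+* KQ F := (PQ F).comp Polynomial.C

theorem io_mem (F : Type) [Field F] (c : F) : io F c ∈ OQ F := ⟨Polynomial.C c, rfl⟩

theorem sig_io (F : Type) [Field F] (c : F) : sig F (io F c) = io F c := by
  change sig F (algebraMap (LQ F) (KQ F) (Polynomial.toLaurent (Polynomial.C c))) =
      algebraMap (LQ F) (KQ F) (Polynomial.toLaurent (Polynomial.C c))
  rw [sig_algebraMap, Polynomial.toLaurent_C, LaurentPolynomial.invert_C]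

/-- the algebra structure of the ring -/
noncomputable instance algRO (F : Type) [Field F] : Algebra F (RO (sig F) (sig_sig F) (OQ F)) :=
  RingHom.toAlgebra' (sc (sig F) (sig_sig F) (OQ F) (io F) (io_mem F))
    (sc_central (sig F) (sig_sig F) (OQ F) (io F) (io_mem F) (sig_io F))

theorem algebraMap_eq (F : Type) [Field F] (c : F) :
    algebraMap F (RO (sig F) (sig_sig F) (OQ F)) c =
      sc (sig F) (sig_sig F) (OQ F) (io F) (io_mem F) c := rfl

/-- the isomorphism with the opposite algebra -/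
noncomputable def opIso (F : Type) [Field F] :
    RO (sig F) (sig_sig F) (OQ F) ≃ₐ[F] (RO (sig F) (sig_sig F) (OQ F))ᵐᵒᵖ where
  toFun a := MulOpposite.op (th (sig F) (sig_sig F) (OQ F) a)
  invFun b := th (sig F) (sig_sig F) (OQ F) b.unop
  left_inv a := th_th _ _ _ a
  right_inv b := by
    change MulOpposite.op (th _ _ _ (th _ _ _ b.unop)) = b
    rw [th_th]
    rfl
  map_mul' a b := by
    rw [th_mul]
    rfl
  map_add' a b := by
    rw [th_add]
    rfl
  commutes' c := by
    rw [MulOpposite.algebraMap_apply, algebraMap_eq, th_sc _ _ _ _ _ (sig_io F)]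

theorem main (F : Type) [Field F] : ∃ (R : Type) (_ : Ring R) (_ : Algebra F R), IsDomain R ∧
    (∀ I : Submodule Rᵐᵒᵖ R, I.FG → ∃ a : R, I = Submodule.span Rᵐᵒᵖ {a}) ∧
    (∀ I : Submodule R R, I.FG → ∃ a : R, I = Submodule.span R {a}) ∧
    Nonempty (R ≃ₐ[F] Rᵐᵒᵖ) ∧
    ∃ (M : Type) (_ : AddCommGroup M) (_ : Module Rᵐᵒᵖ M) (N : Submodule Rᵐᵒᵖ M),
      RDPure N ∧ ¬ IsPure N := by
  refine ⟨RO (sig F) (sig_sig F) (OQ F), inferInstance, algRO F, isDomain_RO _ _ _, ?_, ?_,
    ⟨opIso F⟩, _, _, _, NN (BB (sig F) (sig_sig F) (OQ F) (ff F)), rdpure_NN _, ?_⟩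
  · exact bezout_right (two_right (sig F) (sig_sig F) (OQ F) (H1 F))
  · exact bezout_left (two_left (sig F) (sig_sig F) (OQ F) (H1 F))
  · exact not_pure (sig F) (sig_sig F) (OQ F) (H2 F) (ff F) (H3 F)

end Pool.Agent.H452.BZ
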